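import Mathlib
import Pool.Agent.P.MP_81db1e_al.RelCore

set_option autoImplicit false

namespace Pool.Agent.Results.MP_81db1e_al.RelativelyFree

open Pool.Agent.P.MP_81db1e_al

theorem result (k : Type) [Field k] [CharZero k] :
    ∃ u v : Fin 4 → RelFree k,
      Function.Injective u ∧ Function.Injective v ∧
      (∃ (F : Type) (_ : Field F) (_ : Algebra k F) (A : Type) (_ : Ring A)
          (_ : Algebra F A) (_ : Algebra k A) (_ : IsScalarTower k F A)
          (_ : FiniteDimensional F A) (φ : RelFree k →ₐ[k] A),
          Function.Injective φ ∧ ¬ LinearIndependent F (fun i => φ (u i))) ∧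
      (∃ (F : Type) (_ : Field F) (_ : Algebra k F) (A : Type) (_ : Ring A)
          (_ : Algebra F A) (_ : Algebra k A) (_ : IsScalarTower k F A)
          (_ : FiniteDimensional F A) (φ : RelFree k →ₐ[k] A),
          Function.Injective φ ∧ ¬ LinearIndependent F (fun i => φ (v i))) ∧
      ∀ (F : Type) [Field F] (A : Type) [NonUnitalRing A] [Module F A]
          [IsScalarTower F A A] [SMulCommClass F A A] (φ : RelFree k →ₙ+* A),
          Function.Injective φ →
          LinearIndependent F (fun i => φ (u i)) ∨ LinearIndependent F (fun i => φ (v i)) :=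
  ⟨famU k, famV k, inj_U, inj_V,
    ⟨FF k, inferInstance, inferInstance, Matrix (Fin 3) (Fin 3) (FF k), inferInstance,
      inferInstance, inferInstance, inferInstance, inferInstance, rep 0, rep_inj 0, dep_U⟩,
    ⟨FF k, inferInstance, inferInstance, Matrix (Fin 3) (Fin 3) (FF k), inferInstance,
      inferInstance, inferInstance, inferInstance, inferInstance, rep 1, rep_inj 1, dep_V⟩,
    fun F _ A _ _ _ _ φ hφ => not_both_rel F A φ hφ⟩

end Pool.Agent.Results.MP_81db1e_al.RelativelyFree
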