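import Pool.Agent.P.MP_81db1e_al.SpC

set_option autoImplicit false

namespace Pool.Agent.Results.MP_81db1e_al.Semiprime

theorem result (k : Type) [Field k] [IsAlgClosed k] (R : Type) [Ring R] [Algebra k R]
    (hsp : ∀ a : R, (∀ x, a * x * a = 0) → a = 0)
    (hrep : ∃ (F : Type) (_ : Field F) (_ : Algebra k F) (A : Type) (_ : Ring A)
      (_ : Algebra F A) (_ : Algebra k A) (_ : IsScalarTower k F A)
      (_ : FiniteDimensional F A) (φ : R →ₐ[k] A), Function.Injective φ) :
    (∃ (F : Type) (_ : Field F) (_ : Algebra k F) (A : Type) (_ : Ring A)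
        (_ : Algebra F A) (_ : Algebra k A) (_ : IsScalarTower k F A)
        (_ : FiniteDimensional F A) (φ : R →ₐ[k] A),
      Function.Injective φ ∧
      ∀ (F' : Type) [Field F'] [Algebra k F'] (A' : Type) [Ring A'] [Algebra F' A']
        [Algebra k A'] [IsScalarTower k F' A'] [FiniteDimensional F' A']
        (φ' : R →ₐ[k] A'), Function.Injective φ' →
        ∀ (ι : Type) (r : ι → R),
          ¬ LinearIndependent F' (fun i => φ' (r i)) →
          ¬ LinearIndependent F (fun i => φ (r i))) ↔
    ∀ I J : Ideal R, I.IsTwoSided → J.IsTwoSided → I ⊓ J = ⊥ →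
      Module.Finite k I ∨ Module.Finite k J :=
  Pool.Agent.Env81.main hsp hrep

end Pool.Agent.Results.MP_81db1e_al.Semiprime
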