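import Mathlib
import Pool.Agent.P.MP_81db1e_al.Core

set_option autoImplicit false

namespace Pool.Agent.Results.MP_81db1e_al.TwoSets

theorem result (k : Type) [Field k] :
    ∃ (R : Type) (_ : CommRing R) (_ : Algebra k R) (_ : Algebra.FiniteType k R)
      (_ : IsReduced R) (u v : Fin 2 → R),
      Function.Injective u ∧ Function.Injective v ∧
      (∃ (F : Type) (_ : Field F) (_ : Algebra k F) (A : Type) (_ : Ring A)
          (_ : Algebra F A) (_ : Algebra k A) (_ : IsScalarTower k F A)
          (_ : FiniteDimensional F A) (φ : R →ₐ[k] A),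
          Function.Injective φ ∧ ¬ LinearIndependent F (fun i => φ (u i))) ∧
      (∃ (F : Type) (_ : Field F) (_ : Algebra k F) (A : Type) (_ : Ring A)
          (_ : Algebra F A) (_ : Algebra k A) (_ : IsScalarTower k F A)
          (_ : FiniteDimensional F A) (φ : R →ₐ[k] A),
          Function.Injective φ ∧ ¬ LinearIndependent F (fun i => φ (v i))) ∧
      ∀ (F : Type) [Field F] (A : Type) [NonUnitalRing A] [Module F A]
          [IsScalarTower F A A] [SMulCommClass F A A] (φ : R →ₙ+* A),
          Function.Injective φ →
          LinearIndependent F (fun i => φ (u i)) ∨ LinearIndependent F (fun i => φ (v i)) :=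
  Pool.Agent.P.MP_81db1e_al.two_sets k

end Pool.Agent.Results.MP_81db1e_al.TwoSets
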